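import Pool.Agent.Work.MP_655153_lb.Final

/-!
# The beam detection constant of the unit circle is at least 3.15

`detectorConstant n` is `L_n`, the infimum of the lengths of `n`-arcs which meet every line meeting
the unit circle; `L = inf_{n ≥ 1} L_n`. The bound known before is `L ≥ π`.
-/

open Pool.Agent.Work.MP_655153_co

namespace Pool.Agent.Results.MP_655153_co.LowerBound

/-- `L_n ≥ 3.15` for all `n`, hence `L = inf_{n ≥ 1} L_n ≥ 3.15 > π`. -/
theorem result :
    (∀ n : ℕ, ENNReal.ofReal 3.15 ≤ detectorConstant n) ∧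
    ENNReal.ofReal 3.15 ≤ ⨅ (n : ℕ) (_ : 1 ≤ n), detectorConstant n := by
  have h : ∀ n : ℕ, ENNReal.ofReal 3.15 ≤ detectorConstant n :=
    Pool.Agent.Work.MP_655153_lb.lower_bound
  exact ⟨h, le_iInf₂ fun n _ => h n⟩

end Pool.Agent.Results.MP_655153_co.LowerBound
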