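import Pool.Agent.Work.MP_655153_co.Main

/-!
# A 3-arc beam detector for the unit circle shorter than the best recorded one

`detectorConstant n` is `L_n`, the infimum of the lengths of `n`-arcs which meet every line meeting
the unit circle. The best recorded bound is `L ≤ L_3 ≤ 4.799891547...`.
-/

open Pool.Agent.Work.MP_655153_co

namespace Pool.Agent.Results.MP_655153_co.ThreeArcBound

/-- `L_3 < 4.79986`, hence also `L = inf_{n ≥ 1} L_n < 4.79986`. -/
theorem result :
    detectorConstant 3 < ENNReal.ofReal 4.79986 ∧
    (⨅ (n : ℕ) (_ : 1 ≤ n), detectorConstant n) < ENNReal.ofReal 4.79986 := by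
  have h : detectorConstant 3 < ENNReal.ofReal 4.79986 := by
    have := main
    norm_num at this ⊢
    exact this
  exact ⟨h, (iInf₂_le 3 (by norm_num)).trans_lt h⟩

end Pool.Agent.Results.MP_655153_co.ThreeArcBound
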