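import Pool.Agent.Work.MP_655153_ba.Main

/-!
# The two-arc beam detection constant of the unit circle: the bow and arrow is optimal

`detectorConstant n` is `L_n`, the infimum of the lengths of `n`-arcs which meet every line meeting
the unit circle. `bowArrow μ t = 2π - 2μ + 2t - 4 arctan t + (tan μ + t) sin μ` is the length of
Makai's bow and arrow detector: the bow is the arc of the circle from the angle `μ + 2 arctan t` to
the angle `2π - μ - 2 arctan t` together with the two tangent segments of length `t` at its ends,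
the arrow is the segment of the real axis from the abscissa `cos μ - t sin μ` of the ends of the bow
to `1 / cos μ`.
-/

open Pool.Agent.Work.MP_655153_co
open Pool.BA

namespace Pool.Agent.Results.MP_655153_co.TwoArcValue

/-- `L_2` is the minimum of the lengths of the bow and arrow detectors, the parameters satisfy the
two equations of a critical point, the infimum `L_2` is attained by a 2-arc detector, and
`4.8189 < L_2 ≤ 4.819`. -/
theorem result :
    (∃ μ t : ℝ, 0 < μ ∧ μ < Real.pi / 2 ∧ 0 < t ∧ 4 * Real.arctan t < 2 * Real.pi - 2 * μ ∧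
      (2 + Real.sin μ) * (1 + t ^ 2) = 4 ∧
      (2 - Real.sin μ - t * Real.cos μ) * Real.cos μ ^ 2 = Real.sin μ ∧
      (∀ μ' t' : ℝ, 0 < μ' → μ' < Real.pi / 2 → 0 < t' →
        4 * Real.arctan t' < 2 * Real.pi - 2 * μ' → bowArrow μ t ≤ bowArrow μ' t') ∧
      detectorConstant 2 = ENNReal.ofReal (bowArrow μ t)) ∧
    (∃ A : Fin 2 → PlaneArc, IsBeamDetector (⋃ i, (A i).carrier) ∧
      ∑ i, (A i).length = detectorConstant 2) ∧
    ENNReal.ofReal 4.8189 < detectorConstant 2 ∧
    detectorConstant 2 ≤ ENNReal.ofReal 4.819 := by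
  obtain ⟨h1, A, hA, hA2⟩ := m_FIN
  obtain ⟨μ, t, a1, a2, a3, a4, a5, a6, a7⟩ := m_ATT
  have hTL : 48189 / 10000 < Tstar := p_TL
  have hTU : Tstar ≤ 4819 / 1000 := p_TU
  have hbdd : BddBelow {y | ∃ μ t, 0 < μ ∧ μ < Real.pi / 2 ∧ 0 < t ∧
      4 * Real.arctan t < 2 * Real.pi - 2 * μ ∧ y = bowArrow μ t} := by
    refine ⟨0, ?_⟩
    rintro y ⟨μ, t, k1, k2, k3, k4, rfl⟩
    have hs : 0 < Real.sin μ := Real.sin_pos_of_pos_of_lt_pi k1 (by linarith [Real.pi_pos])
    have ht : 0 < Real.tan μ := Real.tan_pos_of_pos_of_lt_pi_div_two k1 k2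
    have := mul_pos (add_pos ht k3) hs
    unfold bowArrow
    linarith
  have l1 : ENNReal.ofReal 4.8189 < detectorConstant 2 := by
    rw [h1]
    exact (ENNReal.ofReal_lt_ofReal_iff (by linarith)).2 (by norm_num at hTL ⊢; exact hTL)
  refine ⟨⟨μ, t, a1, a2, a3, a4, a6, a7, ?_, ?_⟩, ⟨A, hA, hA2.trans h1.symm⟩, l1, ?_⟩
  · intro μ' t' k1 k2 k3 k4
    rw [← a5]
    exact csInf_le hbdd ⟨μ', t', k1, k2, k3, k4, rfl⟩
  · rw [h1, a5]
  · rw [h1]
    exact ENNReal.ofReal_le_ofReal (by norm_num at hTU ⊢; exact hTU)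

end Pool.Agent.Results.MP_655153_co.TwoArcValue
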